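import Mathlib

/-!
# Good graphs: definitions and first tools

A graph is good if all its cliques are countable and every colouring of its edges with countably
many colours has an infinite monochromatic clique.
-/

namespace Pool.Agent.Helper883_Good

universe u

variable {V : Type u}

/-- Every clique of `G` is countable. -/
def NoUncountableClique (G : SimpleGraph V) : Prop :=
  ∀ S : Set V, G.IsClique S → S.Countable

/-- Every colouring of the edges of `G` by natural numbers has an infinite clique all of whose
edges have the same colour. -/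
def ForcesMonoClique (G : SimpleGraph V) : Prop :=
  ∀ c : G.edgeSet → ℕ, ∃ S : Set V, S.Infinite ∧ G.IsClique S ∧
    ∃ k : ℕ, ∀ e : G.edgeSet, (∀ v ∈ (e : Sym2 V), v ∈ S) → c e = k

/-- The graph `G` is good. -/
def Good (G : SimpleGraph V) : Prop :=
  NoUncountableClique G ∧ ForcesMonoClique G

/-- An infinite set contains a sequence increasing for a given well-order. -/
theorem exists_increasing_seq (r : V → V → Prop) [IsWellOrder V r] {S : Set V}
    (hS : S.Infinite) :
    ∃ x : ℕ → V, (∀ i, x i ∈ S) ∧ ∀ i j, i < j → r (x i) (x j) := by
  classical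
  let f : ℕ ↪ S := Set.Infinite.natEmbedding S hS
  obtain ⟨g, hg⟩ := exists_increasing_or_nonincreasing_subseq r (fun n => (f n : V))
  rcases hg with hg | hg
  · exact ⟨fun n => f (g n), fun i => (f (g i)).2, fun i j hij => hg i j hij⟩
  · exfalso
    have hdesc : ∀ m n : ℕ, m < n → r (f (g n)) (f (g m)) := by
      intro m n hmn
      have h1 := hg m n hmn
      have hne : (f (g m) : V) ≠ f (g n) := by
        intro h
        have := f.injective (Subtype.ext h)
        have := g.injective this
        omega
      rcases trichotomous_of r (f (g m) : V) (f (g n)) with h | h | h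
      · exact absurd h h1
      · exact absurd h hne
      · exact h
    have wf : WellFounded r := IsWellFounded.wf
    exact (RelEmbedding.not_wellFounded (RelEmbedding.natGT (fun n => (f (g n) : V))
      (fun n => hdesc n (n + 1) (Nat.lt_succ_self n)))) wf

/-- A sequence cannot be decreasing for a well-order. -/
theorem not_decreasing_seq (r : V → V → Prop) [IsWellOrder V r] (x : ℕ → V)
    (h : ∀ i j, i < j → r (x j) (x i)) : False := by
  have wf : WellFounded r := IsWellFounded.wf
  exact (RelEmbedding.not_wellFounded (RelEmbedding.natGT x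
      (fun n => h n (n + 1) (Nat.lt_succ_self n)))) wf

/-- The way the forcing property is used: for colourings of increasing pairs with values in a
countable type. -/
theorem ForcesMonoClique.exists_seq {G : SimpleGraph V} (hG : ForcesMonoClique G)
    (r : V → V → Prop) [IsWellOrder V r] {ι : Type*} [Countable ι] (C : V → V → ι) :
    ∃ (k : ι) (x : ℕ → V), ∀ i j, i < j → r (x i) (x j) ∧ G.Adj (x i) (x j) ∧
      C (x i) (x j) = k := by
  classical
  obtain ⟨enc, henc⟩ := exists_injective_nat ι
  -- symmetric version of the colouring
  let C' : V → V → ι := fun a b => if r a b then C a b else C b a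
  have hsymm : ∀ a b, C' a b = C' b a := by
    intro a b
    rcases trichotomous_of r a b with h | h | h
    · have h' : ¬ r b a := fun h' => irrefl_of r a (trans_of r h h')
      simp [C', h, h']
    · rw [h]
    · have h' : ¬ r a b := fun h' => irrefl_of r a (trans_of r h' h)
      simp [C', h, h']
  let c : G.edgeSet → ℕ := fun e => enc (Sym2.lift ⟨C', hsymm⟩ (e : Sym2 V))
  have hc : ∀ a b (hab : G.Adj a b), r a b → c ⟨s(a, b), hab⟩ = enc (C a b) := by
    intro a b hab hr
    simp [c, C', hr]
  obtain ⟨S, hSinf, hScl, k, hk⟩ := hG c
  obtain ⟨x, hxS, hx⟩ := exists_increasing_seq r hSinf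
  have hadj : ∀ i j, i < j → G.Adj (x i) (x j) := by
    intro i j hij
    apply hScl (hxS i) (hxS j)
    intro h
    exact irrefl_of r (x i) (by simpa [← h] using hx i j hij)
  have hcol : ∀ i j, i < j → enc (C (x i) (x j)) = k := by
    intro i j hij
    rw [← hc (x i) (x j) (hadj i j hij) (hx i j hij)]
    apply hk
    intro v hv
    simp only [Sym2.mem_iff] at hv
    rcases hv with rfl | rfl
    · exact hxS i
    · exact hxS j
  refine ⟨C (x 0) (x 1), x, fun i j hij => ⟨hx i j hij, hadj i j hij, ?_⟩⟩
  apply henc
  rw [hcol i j hij, hcol 0 1 Nat.zero_lt_one]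

/-- The way the forcing property is proved. -/
theorem forcesMonoClique_of_exists_seq {G : SimpleGraph V} (r : V → V → Prop) [IsWellOrder V r]
    (h : ∀ C : V → V → ℕ, ∃ (k : ℕ) (x : ℕ → V), ∀ i j, i < j → r (x i) (x j) ∧
      G.Adj (x i) (x j) ∧ C (x i) (x j) = k) : ForcesMonoClique G := by
  classical
  intro c
  let C : V → V → ℕ := fun a b => if hab : G.Adj a b then c ⟨s(a, b), hab⟩ else 0
  obtain ⟨k, x, hx⟩ := h C
  have hinj : Function.Injective x := by
    intro i j hij
    by_contra hne
    rcases lt_or_gt_of_ne hne with h | h
    · exact irrefl_of r (x i) (by simpa [← hij] using (hx i j h).1)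
    · exact irrefl_of r (x i) (by simpa [← hij] using (hx j i h).1)
  refine ⟨Set.range x, Set.infinite_range_of_injective hinj, ?_, k, ?_⟩
  · rintro _ ⟨i, rfl⟩ _ ⟨j, rfl⟩ hne
    have hij : i ≠ j := fun h => hne (by rw [h])
    rcases lt_or_gt_of_ne hij with h | h
    · exact (hx i j h).2.1
    · exact ((hx j i h).2.1).symm
  · rintro ⟨e, he⟩ hv
    induction e using Sym2.ind with
    | _ a b =>
      obtain ⟨i, hi⟩ := hv a (by simp)
      obtain ⟨j, hj⟩ := hv b (by simp)
      subst hi hj
      have hij : i ≠ j := by
        rintro rfl
        exact G.irrefl he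
      rcases lt_or_gt_of_ne hij with h | h
      · have h1 := (hx i j h).2
        have h2 : C (x i) (x j) = c ⟨s(x i, x j), he⟩ := by
          simp only [C]
          rw [dif_pos h1.1]
        rw [← h2]
        exact h1.2
      · have h1 := (hx j i h).2
        have h2 : C (x j) (x i) = c ⟨s(x i, x j), he⟩ := by
          simp only [C]
          rw [dif_pos h1.1]
          congr 1
          exact Subtype.ext (Sym2.eq_swap)
        rw [← h2]
        exact h1.2

end Pool.Agent.Helper883_Good
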