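import Pool.Agent.Helper883_Good.Descent

/-!
# Greedy cliques and the configuration lemma
-/

namespace Pool.Agent.Helper883_Good

universe u

variable {V : Type u}

/-- Membership in the greedy clique below `x`, defined by recursion along the well-order. -/
def greedyMem (r : V → V → Prop) [IsWellFounded V r] (E : V → V → Prop) (x : V) : V → Prop :=
  (IsWellFounded.wf : WellFounded r).fix
    (fun y rec => (r y x ∧ E y x) ∧ ∀ y' (hy' : r y' y), rec y' hy' → E y' y)

/-- The greedy clique below `x`. -/
def greedy (r : V → V → Prop) [IsWellFounded V r] (E : V → V → Prop) (x : V) : Set V :=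
  {y | greedyMem r E x y}

theorem mem_greedy (r : V → V → Prop) [IsWellFounded V r] (E : V → V → Prop) (x y : V) :
    y ∈ greedy r E x ↔ r y x ∧ E y x ∧ ∀ y', r y' y → y' ∈ greedy r E x → E y' y := by
  have h : greedyMem r E x y = ((r y x ∧ E y x) ∧ ∀ y' (_ : r y' y), greedyMem r E x y' →
      E y' y) := WellFounded.fix_eq _ _ _
  change greedyMem r E x y ↔ _
  rw [h]
  exact and_assoc

theorem greedy_countable (r : V → V → Prop) [IsWellFounded V r] (E : V → V → Prop)
    (hE : ∀ S : Set V, (∀ a ∈ S, ∀ b ∈ S, r a b → E a b) → S.Countable) (x : V) :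
    (greedy r E x).Countable := by
  apply hE
  intro a ha b hb hab
  exact ((mem_greedy r E x b).1 hb).2.2 a hab ha

section Diff

variable (r : V → V → Prop) [IsWellOrder V r] (E : V → V → Prop)

/-- The least element of a nonempty set for the well-order (junk value otherwise). -/
noncomputable def leastOf (S : Set V) (x : V) : V :=
  open Classical in
  if h : S.Nonempty then (IsWellFounded.wf : WellFounded r).min S h else x

theorem leastOf_mem {S : Set V} (h : S.Nonempty) (x : V) : leastOf r S x ∈ S := by
  classical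
  unfold leastOf
  rw [dif_pos h]
  exact WellFounded.min_mem _ S h

theorem not_lt_leastOf {S : Set V} {a : V} (ha : a ∈ S) (x : V) : ¬ r a (leastOf r S x) := by
  classical
  unfold leastOf
  rw [dif_pos ⟨a, ha⟩]
  exact WellFounded.not_lt_min _ S ha

/-- The least element of the greedy clique of `x` which is not joined to `z`. -/
noncomputable def yy (z x : V) : V := leastOf r {y | y ∈ greedy r E x ∧ ¬ E y z} x

/-- The least element of the symmetric difference of the greedy cliques of `z` and `x`. -/
noncomputable def dd (z x : V) : V :=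
  leastOf r {y | ¬ (y ∈ greedy r E z ↔ y ∈ greedy r E x)} x

variable {r E}

theorem yy_spec (hEr : ∀ a b, E a b → r a b) {z x : V} (hzx : E z x) :
    yy r E z x ∈ greedy r E x ∧ ¬ E (yy r E z x) z ∧ (yy r E z x = z ∨ r (yy r E z x) z) ∧
      yy r E z x ∉ greedy r E z := by
  have hzz : ¬ E z z := fun h => irrefl_of r z (hEr _ _ h)
  have hex : ∃ y, y ∈ greedy r E x ∧ ¬ E y z ∧ (y = z ∨ r y z) := by
    by_cases hz : z ∈ greedy r E x
    · exact ⟨z, hz, hzz, Or.inl rfl⟩
    · rw [mem_greedy] at hz
      push Not at hz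
      obtain ⟨y', hy'1, hy'2, hy'3⟩ := hz (hEr _ _ hzx) hzx
      exact ⟨y', hy'2, hy'3, Or.inr hy'1⟩
  obtain ⟨y, hy1, hy2, hy3⟩ := hex
  have hne : ({y | y ∈ greedy r E x ∧ ¬ E y z} : Set V).Nonempty := ⟨y, hy1, hy2⟩
  have hmem := leastOf_mem r hne x
  have hnlt : ¬ r y (yy r E z x) := not_lt_leastOf r (S := {y | y ∈ greedy r E x ∧ ¬ E y z})
    ⟨hy1, hy2⟩ x
  refine ⟨hmem.1, hmem.2, ?_, ?_⟩
  · rcases trichotomous_of r (yy r E z x) y with h | h | h
    · rcases hy3 with rfl | h3
      · exact Or.inr h
      · right; exact trans_of r h h3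
    · rw [h]; exact hy3
    · exact absurd h hnlt
  · intro h
    exact hmem.2 ((mem_greedy r E z _).1 h).2.1

theorem dd_spec (hEr : ∀ a b, E a b → r a b) {z x : V} (hzx : E z x) :
    (¬ (dd r E z x ∈ greedy r E z ↔ dd r E z x ∈ greedy r E x)) ∧
    (∀ a, r a (dd r E z x) → (a ∈ greedy r E z ↔ a ∈ greedy r E x)) ∧
    (dd r E z x = yy r E z x ∨ r (dd r E z x) (yy r E z x)) := by
  obtain ⟨h1, _, _, h4⟩ := yy_spec hEr hzx
  have hyS : yy r E z x ∈ {y | ¬ (y ∈ greedy r E z ↔ y ∈ greedy r E x)} := by
    intro h
    exact h4 (h.2 h1)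
  refine ⟨leastOf_mem r ⟨_, hyS⟩ x, ?_, ?_⟩
  · intro a ha
    by_contra hne
    exact not_lt_leastOf r (S := {y | ¬ (y ∈ greedy r E z ↔ y ∈ greedy r E x)}) hne x ha
  · have := not_lt_leastOf r hyS x
    rcases trichotomous_of r (dd r E z x) (yy r E z x) with h | h | h
    · exact Or.inr h
    · exact Or.inl h
    · exact absurd h this

end Diff

/-- The configuration lemma. `H` is a graph forcing infinite monochromatic cliques, `E n` are
relations contained in the well-order whose cliques are countable and which cover the edges of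
`H`, and `e n x` is injective on the greedy `E n`-clique below `x`. -/
theorem config {H : SimpleGraph V} (hH : ForcesMonoClique H) (r : V → V → Prop)
    [IsWellOrder V r] (E : ℕ → V → V → Prop) (hEr : ∀ n a b, E n a b → r a b)
    (hcov : ∀ z x, r z x → H.Adj z x → ∃ n, E n z x)
    (e : ℕ → V → V → ℕ) (he : ∀ n x, Set.InjOn (e n x) (greedy r (E n) x))
    (b : V → V → ℕ) :
    ∃ (n k p q : ℕ) (x d y : ℕ → V),
      (∀ i j, i < j → r (x i) (x j) ∧ H.Adj (x i) (x j) ∧ E n (x i) (x j) ∧ b (x i) (x j) = k) ∧
      (∀ i, d i ∈ greedy r (E n) (x i) ∧ e n (x i) (d i) = p) ∧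
      (∀ i, y i ∈ greedy r (E n) (x i) ∧ e n (x i) (y i) = q) ∧
      (∀ i, r (y i) (x 0)) ∧
      (∀ i j, i < j → r (d i) (d j) ∧ ¬ E n (d i) (x j) ∧ ¬ E n (y j) (x i) ∧ r (d i) (y j)) := by
  classical
  -- the colouring
  let ν : V → V → ℕ := fun z x => if h : ∃ n, E n z x then Nat.find h else 0
  have hν : ∀ z x, r z x → H.Adj z x → E (ν z x) z x := by
    intro z x hr hadj
    have hex := hcov z x hr hadj
    simp only [ν]
    rw [dif_pos hex]
    exact Nat.find_spec hex
  let ty : V → V → Bool := fun z x => decide (dd r (E (ν z x)) z x ∈ greedy r (E (ν z x)) x)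
  let C : V → V → ℕ × ℕ × ℕ × Bool × ℕ := fun z x =>
    (ν z x, b z x, e (ν z x) x (yy r (E (ν z x)) z x), ty z x,
      if ty z x = true then e (ν z x) x (dd r (E (ν z x)) z x)
      else e (ν z x) z (dd r (E (ν z x)) z x))
  obtain ⟨⟨n, k, q, t, p⟩, x, hx⟩ := hH.exists_seq r C
  have hE : ∀ i j, i < j → E n (x i) (x j) := by
    intro i j hij
    have h := hx i j hij
    have h1 : ν (x i) (x j) = n := congrArg Prod.fst h.2.2
    rw [← h1]
    exact hν _ _ h.1 h.2.1
  have hνn : ∀ i j, i < j → ν (x i) (x j) = n := fun i j hij => congrArg Prod.fst (hx i j hij).2.2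
  have hb : ∀ i j, i < j → b (x i) (x j) = k := fun i j hij =>
    congrArg (fun s => s.2.1) (hx i j hij).2.2
  have hq : ∀ i j, i < j → e n (x j) (yy r (E n) (x i) (x j)) = q := by
    intro i j hij
    have h := congrArg (fun s => s.2.2.1) (hx i j hij).2.2
    simp only [C, hνn i j hij] at h
    exact h
  have hty : ∀ i j, i < j → decide (dd r (E n) (x i) (x j) ∈ greedy r (E n) (x j)) = t := by
    intro i j hij
    have h := congrArg (fun s => s.2.2.2.1) (hx i j hij).2.2
    simp only [C, ty, hνn i j hij] at h
    exact h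
  have hp : ∀ i j, i < j → (if t = true then e n (x j) (dd r (E n) (x i) (x j))
      else e n (x i) (dd r (E n) (x i) (x j))) = p := by
    intro i j hij
    have h := congrArg (fun s => s.2.2.2.2) (hx i j hij).2.2
    have h' := hty i j hij
    simp only [C, ty, hνn i j hij] at h
    rw [h'] at h
    exact h
  have hyspec := fun i j (hij : i < j) => yy_spec (hEr n) (hE i j hij)
  have hdspec := fun i j (hij : i < j) => dd_spec (hEr n) (hE i j hij)
  -- the elements `yy (x i) (x j)` depend only on `j`
  have hyconst : ∀ i j, i < j → yy r (E n) (x i) (x j) = yy r (E n) (x 0) (x j) := by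
    intro i j hij
    rcases Nat.eq_zero_or_pos i with rfl | hi
    · rfl
    · apply he n (x j) (hyspec i j hij).1 (hyspec 0 j (by omega)).1
      rw [hq i j hij, hq 0 j (by omega)]
  cases t with
  | true =>
    -- type alpha is impossible
    exfalso
    have hmem : ∀ i j, i < j → dd r (E n) (x i) (x j) ∈ greedy r (E n) (x j) := by
      intro i j hij
      exact of_decide_eq_true (hty i j hij)
    have hnmem : ∀ i j, i < j → dd r (E n) (x i) (x j) ∉ greedy r (E n) (x i) := by
      intro i j hij h
      exact (hdspec i j hij).1 (iff_of_true h (hmem i j hij))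
    have hdconst : ∀ i j, i < j → dd r (E n) (x i) (x j) = dd r (E n) (x 0) (x j) := by
      intro i j hij
      rcases Nat.eq_zero_or_pos i with rfl | hi
      · rfl
      · apply he n (x j) (hmem i j hij) (hmem 0 j (by omega))
        have h1 := hp i j hij
        have h2 := hp 0 j (by omega)
        simp only [if_true] at h1 h2
        rw [h1, h2]
    apply not_decreasing_seq r (fun j => dd r (E n) (x 0) (x (j + 1)))
    intro j l hjl
    rcases trichotomous_of r (dd r (E n) (x 0) (x (j + 1))) (dd r (E n) (x 0) (x (l + 1)))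
      with h | h | h
    · exfalso
      have h1 : dd r (E n) (x 0) (x (j + 1)) ∈ greedy r (E n) (x (j + 1)) :=
        hmem 0 (j + 1) (by omega)
      have h2 : dd r (E n) (x 0) (x (j + 1)) ∈ greedy r (E n) (x (l + 1)) := by
        apply ((hdspec (j + 1) (l + 1) (by omega)).2.1 _ _).1 h1
        rw [hdconst (j + 1) (l + 1) (by omega)]
        exact h
      have h3 : dd r (E n) (x 0) (x (j + 1)) ∈ greedy r (E n) (x 0) :=
        ((hdspec 0 (l + 1) (by omega)).2.1 _ h).2 h2
      exact hnmem 0 (j + 1) (by omega) h3
    · exfalso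
      have h1 : dd r (E n) (x 0) (x (j + 1)) ∈ greedy r (E n) (x (j + 1)) :=
        hmem 0 (j + 1) (by omega)
      rw [h, ← hdconst (j + 1) (l + 1) (by omega)] at h1
      exact hnmem (j + 1) (l + 1) (by omega) h1
    · exact h
  | false =>
    have hnmem : ∀ i j, i < j → dd r (E n) (x i) (x j) ∉ greedy r (E n) (x j) := by
      intro i j hij
      exact of_decide_eq_false (hty i j hij)
    have hmem : ∀ i j, i < j → dd r (E n) (x i) (x j) ∈ greedy r (E n) (x i) := by
      intro i j hij
      by_contra h
      exact (hdspec i j hij).1 (iff_of_false h (hnmem i j hij))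
    have hdconst : ∀ i j, i < j → dd r (E n) (x i) (x j) = dd r (E n) (x i) (x (i + 1)) := by
      intro i j hij
      apply he n (x i) (hmem i j hij) (hmem i (i + 1) (by omega))
      have h1 := hp i j hij
      have h2 := hp i (i + 1) (by omega)
      simp only [Bool.false_eq_true, if_false] at h1 h2
      rw [h1, h2]
    have hdinc : ∀ i j, i < j → r (dd r (E n) (x i) (x (i + 1))) (dd r (E n) (x j) (x (j + 1))) := by
      intro i j hij
      rcases trichotomous_of r (dd r (E n) (x i) (x (i + 1))) (dd r (E n) (x j) (x (j + 1)))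
        with h | h | h
      · exact h
      · exfalso
        have h1 := hmem j (j + 1) (by omega)
        rw [← h, ← hdconst i j hij] at h1
        exact hnmem i j hij h1
      · exfalso
        have h1 : dd r (E n) (x j) (x (j + 1)) ∈ greedy r (E n) (x j) := hmem j (j + 1) (by omega)
        have h2 : dd r (E n) (x j) (x (j + 1)) ∈ greedy r (E n) (x i) := by
          apply ((hdspec i j hij).2.1 _ _).2 h1
          rw [hdconst i j hij]
          exact h
        have h3 : dd r (E n) (x j) (x (j + 1)) ∈ greedy r (E n) (x (j + 1)) := by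
          apply ((hdspec i (j + 1) (by omega)).2.1 _ _).1 h2
          rw [hdconst i (j + 1) (by omega)]
          exact h
        exact hnmem j (j + 1) (by omega) h3
    have hdx : ∀ i j, i < j → ¬ E n (dd r (E n) (x i) (x (i + 1))) (x j) := by
      intro i j hij hEij
      apply hnmem i j hij
      rw [mem_greedy, hdconst i j hij]
      refine ⟨hEr n _ _ hEij, hEij, ?_⟩
      intro y' hy' hy'K
      have h1 : y' ∈ greedy r (E n) (x i) := by
        apply ((hdspec i j hij).2.1 _ _).2 hy'K
        rw [hdconst i j hij]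
        exact hy'
      exact ((mem_greedy r (E n) (x i) _).1 (hmem i (i + 1) (by omega))).2.2 y' hy' h1
    refine ⟨n, k, p, q, fun i => x (i + 1), fun i => dd r (E n) (x (i + 1)) (x (i + 1 + 1)),
      fun i => yy r (E n) (x 0) (x (i + 1)), ?_, ?_, ?_, ?_, ?_⟩
    · intro i j hij
      have h := hx (i + 1) (j + 1) (by omega)
      exact ⟨h.1, h.2.1, hE _ _ (by omega), hb _ _ (by omega)⟩
    · intro i
      refine ⟨hmem _ _ (by omega), ?_⟩
      have h1 := hp (i + 1) (i + 1 + 1) (by omega)
      simpa using h1
    · intro i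
      exact ⟨(hyspec 0 (i + 1) (by omega)).1, hq 0 (i + 1) (by omega)⟩
    · intro i
      have h01 : r (x 0) (x 1) := (hx 0 1 (by omega)).1
      rcases (hyspec 0 (i + 1) (by omega)).2.2.1 with h | h
      · show r (yy r (E n) (x 0) (x (i + 1))) (x (0 + 1))
        rw [h]; exact h01
      · exact trans_of r h h01
    · intro i j hij
      refine ⟨hdinc _ _ (by omega), hdx _ _ (by omega), ?_, ?_⟩
      · have h := (hyspec (i + 1) (j + 1) (by omega)).2.1
        rw [hyconst (i + 1) (j + 1) (by omega)] at h
        exact h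
      · have h := (hdspec (i + 1) (j + 1) (by omega)).2.2
        rw [hyconst (i + 1) (j + 1) (by omega), hdconst (i + 1) (j + 1) (by omega)] at h
        rcases h with h | h
        · exfalso
          apply hnmem (i + 1) (j + 1) (by omega)
          rw [hdconst (i + 1) (j + 1) (by omega), h]
          exact (hyspec 0 (j + 1) (by omega)).1
        · exact h

end Pool.Agent.Helper883_Good
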