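import Pool.Agent.Helper883_Good.Basic

/-!
# The descent lemma

Deleting from a graph all edges whose images under one of countably many regressive maps are
again edges does not destroy the property of forcing infinite monochromatic cliques.
-/

namespace Pool.Agent.Helper883_Good

universe u

variable {V : Type u}

/-- The images of `z` and `x` under `f` are smaller than `z` and `x` and adjacent. -/
def DownAdj (G : SimpleGraph V) (r : V → V → Prop) (f : V → V) (z x : V) : Prop :=
  r (f z) z ∧ r (f x) x ∧ G.Adj (f z) (f x)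

/-- The subgraph of the edges of `G` none of whose regressive images is an edge. -/
def reduced (G : SimpleGraph V) (r : V → V → Prop) (h : ℕ → V → V) : SimpleGraph V where
  Adj z x := G.Adj z x ∧ ∀ n, ¬ DownAdj G r (h n) z x
  symm := ⟨fun _ _ hzx => ⟨hzx.1.symm, fun n hn => hzx.2 n ⟨hn.2.1, hn.1, hn.2.2.symm⟩⟩⟩
  loopless := ⟨fun _ hz => G.irrefl hz.1⟩

theorem reduced_adj {G : SimpleGraph V} {r : V → V → Prop} {h : ℕ → V → V} {z x : V} :
    (reduced G r h).Adj z x ↔ G.Adj z x ∧ ∀ n, ¬ DownAdj G r (h n) z x := Iff.rfl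

open Classical in
/-- One step of the recursive colouring. -/
noncomputable def colStep (G : SimpleGraph V) (r : V → V → Prop) (h : ℕ → V → V)
    (C' : V → V → ℕ) (x : V) (rec : (y : V) → r y x → V → List ℕ) (z : V) : List ℕ :=
  if (reduced G r h).Adj z x then [C' z x]
  else if hex : ∃ n, DownAdj G r (h n) z x then
    if r (h (Nat.find hex) z) (h (Nat.find hex) x) then
      Nat.find hex :: 1 :: rec (h (Nat.find hex) x) (Nat.find_spec hex).2.1 (h (Nat.find hex) z)
    else [Nat.find hex, 0]
  else []

/-- The recursive colouring. -/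
noncomputable def col (G : SimpleGraph V) (r : V → V → Prop) [IsWellFounded V r]
    (h : ℕ → V → V) (C' : V → V → ℕ) : V → V → List ℕ :=
  (IsWellFounded.wf : WellFounded r).fix (colStep G r h C')

theorem col_eq (G : SimpleGraph V) (r : V → V → Prop) [IsWellFounded V r]
    (h : ℕ → V → V) (C' : V → V → ℕ) (x : V) :
    col G r h C' x = colStep G r h C' x (fun y _ => col G r h C' y) :=
  WellFounded.fix_eq _ _ _

theorem col_cases (G : SimpleGraph V) (r : V → V → Prop) [IsWellFounded V r]
    (h : ℕ → V → V) (C' : V → V → ℕ) {z x : V} (hzx : G.Adj z x) :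
    ((reduced G r h).Adj z x ∧ col G r h C' x z = [C' z x]) ∨
    (∃ n, DownAdj G r (h n) z x ∧ r (h n z) (h n x) ∧
      col G r h C' x z = n :: 1 :: col G r h C' (h n x) (h n z)) ∨
    (∃ n, DownAdj G r (h n) z x ∧ ¬ r (h n z) (h n x) ∧ col G r h C' x z = [n, 0]) := by
  classical
  rw [col_eq]
  unfold colStep
  by_cases hred : (reduced G r h).Adj z x
  · left
    simp [hred]
  · right
    have hex : ∃ n, DownAdj G r (h n) z x := by
      by_contra hne
      apply hred
      exact ⟨hzx, fun n hn => hne ⟨n, hn⟩⟩
    rw [if_neg hred, dif_pos hex]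
    have hspec := Nat.find_spec hex
    by_cases hr : r (h (Nat.find hex) z) (h (Nat.find hex) x)
    · left
      refine ⟨Nat.find hex, hspec, hr, ?_⟩
      rw [if_pos hr]
    · right
      refine ⟨Nat.find hex, hspec, hr, ?_⟩
      rw [if_neg hr]

theorem descent_aux (G : SimpleGraph V) (r : V → V → Prop) [IsWellOrder V r]
    (h : ℕ → V → V) (C' : V → V → ℕ) :
    ∀ (N : ℕ) (k : List ℕ), k.length ≤ N → ∀ x : ℕ → V,
      (∀ i j, i < j → r (x i) (x j) ∧ G.Adj (x i) (x j) ∧ col G r h C' (x j) (x i) = k) →
      ∃ (k' : ℕ) (x' : ℕ → V), ∀ i j, i < j → r (x' i) (x' j) ∧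
        (reduced G r h).Adj (x' i) (x' j) ∧ C' (x' i) (x' j) = k' := by
  intro N
  induction N with
  | zero =>
    intro k hk x hx
    exfalso
    have hk0 : k = [] := List.length_eq_zero_iff.mp (Nat.le_zero.mp hk)
    have h01 := hx 0 1 Nat.zero_lt_one
    rcases col_cases G r h C' h01.2.1 with hc | ⟨n, _, _, hc⟩ | ⟨n, _, _, hc⟩
    · rw [h01.2.2, hk0] at hc
      simp at hc
    · rw [h01.2.2, hk0] at hc
      simp at hc
    · rw [h01.2.2, hk0] at hc
      simp at hc
  | succ N ih =>
    intro k hk x hx
    have h01 := hx 0 1 Nat.zero_lt_one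
    rcases col_cases G r h C' h01.2.1 with hc | ⟨n, _, _, hc⟩ | ⟨n, _, _, hc⟩
    · -- all pairs are edges of the reduced graph
      rw [h01.2.2] at hc
      refine ⟨C' (x 0) (x 1), x, fun i j hij => ?_⟩
      have hx' := hx i j hij
      rcases col_cases G r h C' hx'.2.1 with hc' | ⟨n, _, _, hc'⟩ | ⟨n, _, _, hc'⟩
      · refine ⟨hx'.1, hc'.1, ?_⟩
        have := hc'.2
        rw [hx'.2.2, hc.2] at this
        simpa using this.symm
      · rw [hx'.2.2, hc.2] at hc'
        simp at hc'
      · rw [hx'.2.2, hc.2] at hc'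
        simp at hc'
    · -- pass to the images under `h n`
      rw [h01.2.2] at hc
      have key : ∀ i j, i < j → r (h n (x i)) (h n (x j)) ∧
          G.Adj (h n (x i)) (h n (x j)) ∧
          col G r h C' (h n (x j)) (h n (x i)) = col G r h C' (h n (x 1)) (h n (x 0)) := by
        intro i j hij
        have hx' := hx i j hij
        rcases col_cases G r h C' hx'.2.1 with hc' | ⟨m, hm1, hm2, hc'⟩ | ⟨m, _, _, hc'⟩
        · rw [hx'.2.2, hc] at hc'
          simp at hc'
        · rw [hx'.2.2, hc] at hc'
          simp only [List.cons.injEq, true_and] at hc'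
          obtain ⟨rfl, hc'⟩ := hc'
          exact ⟨hm2, hm1.2.2, hc'.symm⟩
        · rw [hx'.2.2, hc] at hc'
          simp at hc'
      apply ih _ _ (fun i => h n (x i)) key
      have : k.length = (col G r h C' (h n (x 1)) (h n (x 0))).length + 2 := by
        rw [hc]; simp
      omega
    · -- impossible: an infinite decreasing sequence
      exfalso
      rw [h01.2.2] at hc
      apply not_decreasing_seq r (fun i => h n (x i))
      intro i j hij
      have hx' := hx i j hij
      rcases col_cases G r h C' hx'.2.1 with hc' | ⟨m, hm1, hm2, hc'⟩ | ⟨m, hm1, hm2, hc'⟩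
      · rw [hx'.2.2, hc] at hc'
        simp at hc'
      · rw [hx'.2.2, hc] at hc'
        simp at hc'
      · rw [hx'.2.2, hc] at hc'
        simp only [List.cons.injEq, and_true] at hc'
        subst hc'
        rcases trichotomous_of r (h n (x i)) (h n (x j)) with h' | h' | h'
        · exact absurd h' hm2
        · exact absurd h' hm1.2.2.ne
        · exact h'

/-- The descent lemma. -/
theorem ForcesMonoClique.reduced {G : SimpleGraph V} (hG : ForcesMonoClique G)
    (r : V → V → Prop) [IsWellOrder V r] (h : ℕ → V → V) :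
    ForcesMonoClique (reduced G r h) := by
  apply forcesMonoClique_of_exists_seq r
  intro C'
  obtain ⟨k, x, hx⟩ := hG.exists_seq r (fun z x => col G r h C' x z)
  exact descent_aux G r h C' k.length k le_rfl x hx

end Pool.Agent.Helper883_Good
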