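import Pool.Agent.Helper883_Good.Basic

/-!
# Countable unions
-/

namespace Pool.Agent.Helper883_Good

universe u

variable {V : Type u}

/-- If the edges of a graph forcing infinite monochromatic cliques are covered by countably many
graphs, then one of these has the same property. -/
theorem ForcesMonoClique.exists_of_cover {G : SimpleGraph V} (hG : ForcesMonoClique G)
    (Gn : ℕ → SimpleGraph V) (hcov : ∀ x y, G.Adj x y → ∃ n, (Gn n).Adj x y) :
    ∃ n, ForcesMonoClique (Gn n) := by
  classical
  by_contra hne
  push Not at hne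
  let r : V → V → Prop := WellOrderingRel
  have hbad : ∀ n, ∃ C : V → V → ℕ, ∀ (k : ℕ) (x : ℕ → V), ¬ ∀ i j, i < j → r (x i) (x j) ∧
      (Gn n).Adj (x i) (x j) ∧ C (x i) (x j) = k := by
    intro n
    by_contra h
    push Not at h
    apply hne n
    apply forcesMonoClique_of_exists_seq r
    intro C
    obtain ⟨k, x, hx⟩ := h C
    exact ⟨k, x, hx⟩
  choose C hC using hbad
  let ν : V → V → ℕ := fun z x => if h : ∃ n, (Gn n).Adj z x then Nat.find h else 0
  have hν : ∀ z x, G.Adj z x → (Gn (ν z x)).Adj z x := by
    intro z x hadj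
    have hex := hcov z x hadj
    simp only [ν]
    rw [dif_pos hex]
    exact Nat.find_spec hex
  obtain ⟨⟨n, k⟩, x, hx⟩ := hG.exists_seq r (fun z x => (ν z x, C (ν z x) z x))
  apply hC n k x
  intro i j hij
  have h := hx i j hij
  have h1 : ν (x i) (x j) = n := congrArg Prod.fst h.2.2
  have h2 : C (ν (x i) (x j)) (x i) (x j) = k := congrArg Prod.snd h.2.2
  rw [h1] at h2
  refine ⟨h.1, ?_, h2⟩
  rw [← h1]
  exact hν _ _ h.2.1

/-- Subgraphs of graphs without uncountable cliques have no uncountable cliques. -/
theorem NoUncountableClique.mono {G H : SimpleGraph V} (hG : NoUncountableClique G)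
    (hle : ∀ x y, H.Adj x y → G.Adj x y) : NoUncountableClique H := by
  intro S hS
  apply hG S
  intro a ha b hb hab
  exact hle a b (hS ha hb hab)

end Pool.Agent.Helper883_Good
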