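import Pool.Agent.Helper883_Good.Structure
import Pool.Agent.Helper883_Good.Union

/-!
No graph whose edge set is a countable union of incomparability graphs of well-founded partial
orders is good.
-/

namespace Pool.Agent.Helper883_Good.Incomparability

open Pool.Agent.Helper883_Good

universe u

/-- The case of one order. -/
theorem single {V : Type u} (G : SimpleGraph V) (R : V → V → Prop)
    (htrans : ∀ x y z, R x y → R y z → R x z) (hwf : WellFounded R)
    (hG : ∀ x y, G.Adj x y ↔ x ≠ y ∧ ¬ R x y ∧ ¬ R y x) : ¬ Good G := by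
  intro hgood
  have : IsWellFounded V R := ⟨hwf⟩
  obtain ⟨r, hle, hr⟩ := IsWellFounded.exists_well_order_ge R
  have hRr : ∀ a b, R a b → r a b := fun a b h => hle a b h
  obtain ⟨m, _, x, d, y, hx, _, hd, hdd, hy, hyy⟩ :=
    structure_of_good hgood r (fun _ z x => G.Adj z x) (fun z x _ => ⟨fun h => ⟨0, h⟩,
      fun ⟨_, h⟩ => h⟩) (fun _ _ => 0) (fun _ v => v)
  have hyx : ∀ i j, i < j → R (y j) (x i) := by
    intro i j hij
    have hlt : r (y j) (x i) := by
      rcases Nat.eq_zero_or_pos i with rfl | hi
      · exact (hy j).1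
      · exact trans_of r (hy j).1 (hx 0 i hi).1
    have hnadj := (hyy i j hij).2.2.1
    rw [hG] at hnadj
    by_contra hR
    apply hnadj
    refine ⟨?_, hR, ?_⟩
    · intro h
      rw [h] at hlt
      exact irrefl_of r _ hlt
    · intro h
      exact irrefl_of r _ (trans_of r hlt (hRr _ _ h))
  have hdec : ∀ i j, i < j → R (y j) (y i) := by
    intro i j hij
    have h1 := (hyy i j hij).1
    have h2 := (hyy i j hij).2.1
    rw [hG] at h2
    by_contra hR
    apply h2
    refine ⟨h1, ?_, hR⟩
    intro h
    have h3 := (hy i).2.1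
    rw [hG] at h3
    exact h3.2.1 (htrans _ _ _ h (hyx i j hij))
  exact (wellFounded_iff_isEmpty_descending_chain.1 hwf).false
    ⟨y, fun n => hdec n (n + 1) (Nat.lt_succ_self n)⟩

/-- If the edges of `G` are the pairs of distinct elements incomparable in at least one of
countably many well-founded transitive relations `R n`, then `G` is not good: either it has an
uncountable clique, or its edges can be coloured with countably many colours without an infinite
monochromatic clique. -/
theorem result {V : Type u} (G : SimpleGraph V) (R : ℕ → V → V → Prop)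
    (htrans : ∀ n x y z, R n x y → R n y z → R n x z) (hwf : ∀ n, WellFounded (R n))
    (hG : ∀ x y, G.Adj x y ↔ ∃ n, x ≠ y ∧ ¬ R n x y ∧ ¬ R n y x) : ¬ Good G := by
  intro hgood
  let Gn : ℕ → SimpleGraph V := fun n =>
    { Adj := fun x y => x ≠ y ∧ ¬ R n x y ∧ ¬ R n y x
      symm := ⟨fun _ _ h => ⟨h.1.symm, h.2.2, h.2.1⟩⟩
      loopless := ⟨fun _ h => h.1 rfl⟩ }
  obtain ⟨n, hn⟩ := hgood.2.exists_of_cover Gn (fun x y h => (hG x y).1 h)
  apply single (Gn n) (R n) (htrans n) (hwf n) (fun x y => Iff.rfl)
  refine ⟨?_, hn⟩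
  apply hgood.1.mono
  intro x y h
  exact (hG x y).2 ⟨n, h⟩

end Pool.Agent.Helper883_Good.Incomparability
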