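import Pool.Agent.Helper883_Good.Structure
import Pool.Agent.Helper883_Good.Union

/-!
# Partitions of the vertex set into at most continuum many pieces
-/

namespace Pool.Agent.Helper883_Good

universe u

variable {V : Type u}

/-- Let the vertices be coded by reals (`f`), so that they are partitioned into at most continuum
many classes, and let the edges inside the class of `r` be covered by countably many graphs
`E r n`. If the whole graph forces infinite monochromatic cliques, then so does some `E r n`. -/
theorem ForcesMonoClique.exists_of_pieces {G : SimpleGraph V} (hG : ForcesMonoClique G)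
    (f : V → ℕ → Bool) (E : (ℕ → Bool) → ℕ → SimpleGraph V)
    (hcov : ∀ x y, G.Adj x y → f x = f y → ∃ n, (E (f x) n).Adj x y) :
    ∃ r n, ForcesMonoClique (E r n) := by
  classical
  by_contra hne
  push Not at hne
  let rel : V → V → Prop := WellOrderingRel
  have hbad : ∀ r n, ∃ C : V → V → ℕ, ∀ (k : ℕ) (x : ℕ → V), ¬ ∀ i j, i < j →
      rel (x i) (x j) ∧ (E r n).Adj (x i) (x j) ∧ C (x i) (x j) = k := by
    intro r n
    by_contra h
    push Not at h
    apply hne r n
    apply forcesMonoClique_of_exists_seq rel
    intro C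
    obtain ⟨k, x, hx⟩ := h C
    exact ⟨k, x, hx⟩
  choose C hC using hbad
  let ν : V → V → ℕ := fun z x => if h : ∃ n, (E (f z) n).Adj z x then Nat.find h else 0
  have hν : ∀ z x, G.Adj z x → f z = f x → (E (f z) (ν z x)).Adj z x := by
    intro z x hadj hf
    have hex := hcov z x hadj hf
    simp only [ν]
    rw [dif_pos hex]
    exact Nat.find_spec hex
  let Δ : V → V → ℕ := fun z x => if h : ∃ n, f z n ≠ f x n then Nat.find h else 0
  have hΔ : ∀ z x, f z ≠ f x → f z (Δ z x) ≠ f x (Δ z x) := by
    intro z x hf
    have hex : ∃ n, f z n ≠ f x n := by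
      by_contra h
      push Not at h
      exact hf (funext h)
    simp only [Δ]
    rw [dif_pos hex]
    exact Nat.find_spec hex
  obtain ⟨⟨t, m, k⟩, x, hx⟩ := hG.exists_seq rel
    (fun z x => (decide (f z = f x), (if f z = f x then ν z x else Δ z x), C (f z) (ν z x) z x))
  have h1 : ∀ i j, i < j → decide (f (x i) = f (x j)) = t := fun i j hij =>
    congrArg Prod.fst (hx i j hij).2.2
  have h2 : ∀ i j, i < j → (if f (x i) = f (x j) then ν (x i) (x j) else Δ (x i) (x j)) = m :=
    fun i j hij => congrArg (fun s => s.2.1) (hx i j hij).2.2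
  have h3 : ∀ i j, i < j → C (f (x i)) (ν (x i) (x j)) (x i) (x j) = k :=
    fun i j hij => congrArg (fun s => s.2.2) (hx i j hij).2.2
  cases t with
  | true =>
    have hf : ∀ i j, i < j → f (x i) = f (x j) := fun i j hij => of_decide_eq_true (h1 i j hij)
    have hf0 : ∀ i, f (x i) = f (x 0) := by
      intro i
      rcases Nat.eq_zero_or_pos i with rfl | hi
      · rfl
      · exact (hf 0 i hi).symm
    have hm : ∀ i j, i < j → ν (x i) (x j) = m := by
      intro i j hij
      have := h2 i j hij
      rwa [if_pos (hf i j hij)] at this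
    apply hC (f (x 0)) m k x
    intro i j hij
    refine ⟨(hx i j hij).1, ?_, ?_⟩
    · have := hν _ _ (hx i j hij).2.1 (hf i j hij)
      rwa [hm i j hij, hf0 i] at this
    · have := h3 i j hij
      rwa [hm i j hij, hf0 i] at this
  | false =>
    have hf : ∀ i j, i < j → f (x i) ≠ f (x j) := fun i j hij => of_decide_eq_false (h1 i j hij)
    have hm : ∀ i j, i < j → Δ (x i) (x j) = m := by
      intro i j hij
      have := h2 i j hij
      rwa [if_neg (hf i j hij)] at this
    have hd : ∀ i j, i < j → f (x i) m ≠ f (x j) m := by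
      intro i j hij
      have := hΔ _ _ (hf i j hij)
      rwa [hm i j hij] at this
    have a := hd 0 1 (by norm_num)
    have b := hd 1 2 (by norm_num)
    have c := hd 0 2 (by norm_num)
    revert a b c
    cases f (x 0) m <;> cases f (x 1) m <;> cases f (x 2) m <;> simp

/-- The version for good graphs. -/
theorem Good.exists_of_pieces {G : SimpleGraph V} (hG : Good G)
    (f : V → ℕ → Bool) (E : (ℕ → Bool) → ℕ → SimpleGraph V)
    (hle : ∀ r n x y, (E r n).Adj x y → G.Adj x y)
    (hcov : ∀ x y, G.Adj x y → f x = f y → ∃ n, (E (f x) n).Adj x y) :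
    ∃ r n, Good (E r n) := by
  obtain ⟨r, n, h⟩ := hG.2.exists_of_pieces f E hcov
  exact ⟨r, n, hG.1.mono (hle r n), h⟩

/-- The case of one transitive relation. -/
theorem not_good_of_comparable {V : Type u} (G : SimpleGraph V) (R : V → V → Prop)
    (htrans : ∀ x y z, R x y → R y z → R x z)
    (hG : ∀ x y, G.Adj x y ↔ R x y ∨ R y x) : ¬ Good G := by
  intro hgood
  let E : ℕ → V → V → Prop := fun m z x => if m = 0 then R z x else R x z
  have hcov : ∀ z x, WellOrderingRel z x → (G.Adj z x ↔ ∃ n, E n z x) := by
    intro z x _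
    rw [hG]
    constructor
    · rintro (h | h)
      · exact ⟨0, by simpa [E] using h⟩
      · exact ⟨1, by simpa [E] using h⟩
    · rintro ⟨m, h⟩
      simp only [E] at h
      split_ifs at h
      · exact Or.inl h
      · exact Or.inr h
  obtain ⟨m, _, x, d, _, hx, _, hd, hdd, _, _⟩ :=
    structure_of_good hgood WellOrderingRel E hcov (fun _ _ => 0) (fun _ v => v)
  have h1 := (hd 0).2
  have h2 := (hx 0 1 Nat.zero_lt_one).2.2.1
  apply (hdd 0 1 Nat.zero_lt_one).2.2
  simp only [E] at h1 h2 ⊢
  split_ifs at h1 h2 ⊢
  · exact htrans _ _ _ h1 h2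
  · exact htrans _ _ _ h2 h1

end Pool.Agent.Helper883_Good
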