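import Pool.Agent.Helper883_Good.Config

/-!
# The structure theorem for good graphs
-/

namespace Pool.Agent.Helper883_Good

universe u

variable {V : Type u}

/-- The structure theorem for good graphs. -/
theorem structure_of_good {G : SimpleGraph V} (hG : Good G) (r : V → V → Prop)
    [IsWellOrder V r] (E : ℕ → V → V → Prop)
    (hE : ∀ z x, r z x → (G.Adj z x ↔ ∃ n, E n z x))
    (b : V → V → ℕ) (h : ℕ → V → V) :
    ∃ (n k : ℕ) (x d y : ℕ → V),
      (∀ i j, i < j → r (x i) (x j) ∧ G.Adj (x i) (x j) ∧ E n (x i) (x j) ∧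
        b (x i) (x j) = k) ∧
      (∀ m i j, i < j → r (h m (x i)) (x i) → r (h m (x j)) (x j) →
        ¬ G.Adj (h m (x i)) (h m (x j))) ∧
      (∀ i, r (d i) (x 0) ∧ E n (d i) (x i)) ∧
      (∀ i j, i < j → r (d i) (d j) ∧ ¬ G.Adj (d i) (d j) ∧ ¬ E n (d i) (x j)) ∧
      (∀ i, r (y i) (x 0) ∧ E n (y i) (x i) ∧ (d i = y i ∨ G.Adj (d i) (y i))) ∧
      (∀ i j, i < j → y i ≠ y j ∧ ¬ G.Adj (y i) (y j) ∧ ¬ E n (y j) (x i) ∧ r (d i) (y j)) := by
  classical
  let E' : ℕ → V → V → Prop := fun n z x => r z x ∧ E n z x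
  have hEr : ∀ n a b, E' n a b → r a b := fun n a b hab => hab.1
  have hadj : ∀ n a b, E' n a b → G.Adj a b := fun n a b hab => (hE a b hab.1).2 ⟨n, hab.2⟩
  have hcount : ∀ n x, (greedy r (E' n) x).Countable := by
    intro n x
    apply greedy_countable
    intro S hS
    apply hG.1 S
    intro a ha b hb hab
    rcases trichotomous_of r a b with h1 | h1 | h1
    · exact hadj n a b (hS a ha b hb h1)
    · exact absurd h1 hab
    · exact (hadj n b a (hS b hb a ha h1)).symm
  choose e he using fun n x => Set.countable_iff_exists_injOn.1 (hcount n x)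
  let idx : ℕ → ℕ → V → V := fun n p x =>
    if hy : ∃ y, y ∈ greedy r (E' n) x ∧ e n x y = p then hy.choose else x
  have hidx : ∀ n p x y, y ∈ greedy r (E' n) x → e n x y = p → idx n p x = y := by
    intro n p x y hy hey
    have hex : ∃ y, y ∈ greedy r (E' n) x ∧ e n x y = p := ⟨y, hy, hey⟩
    simp only [idx]
    rw [dif_pos hex]
    apply he n x hex.choose_spec.1 hy
    rw [hex.choose_spec.2, hey]
  let h' : ℕ → V → V := fun m =>
    if m % 2 = 0 then h (m / 2) else idx (Nat.unpair (m / 2)).1 (Nat.unpair (m / 2)).2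
  have hh'1 : ∀ m, h' (2 * m) = h m := by
    intro m
    have h1 : (2 * m) % 2 = 0 := by omega
    have h2 : (2 * m) / 2 = m := by omega
    simp only [h']
    rw [if_pos h1, h2]
  have hh'2 : ∀ n p, h' (2 * Nat.pair n p + 1) = idx n p := by
    intro n p
    have h1 : ¬ (2 * Nat.pair n p + 1) % 2 = 0 := by omega
    have h2 : (2 * Nat.pair n p + 1) / 2 = Nat.pair n p := by omega
    simp only [h']
    rw [if_neg h1, h2, Nat.unpair_pair]
  have hH := hG.2.reduced r h'
  obtain ⟨n, k, p, q, x, d, y, hx, hd, hy, hy0, hdy⟩ :=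
    config hH r E' hEr (fun z x hzx hadj' => by
      obtain ⟨n, hn⟩ := (hE z x hzx).1 hadj'.1
      exact ⟨n, hzx, hn⟩) e he b
  have hdr : ∀ i, r (d i) (x i) ∧ E n (d i) (x i) := by
    intro i
    have h1 := ((mem_greedy r (E' n) (x i) (d i)).1 (hd i).1).2.1
    exact h1
  have hyr : ∀ i, r (y i) (x i) ∧ E n (y i) (x i) := by
    intro i
    have h1 := ((mem_greedy r (E' n) (x i) (y i)).1 (hy i).1).2.1
    exact h1
  have hdx0 : ∀ i, r (d i) (x 0) := by
    intro i
    exact trans_of r (hdy i (i + 1) (by omega)).2.2.2 (hy0 (i + 1))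
  -- sequences indexed by `idx` are independent
  have hindep : ∀ (s : ℕ) (w : ℕ → V), (∀ i, w i ∈ greedy r (E' n) (x i) ∧ e n (x i) (w i) = s) →
      ∀ i j, i < j → ¬ G.Adj (w i) (w j) := by
    intro s w hw i j hij hadj'
    have h1 := (hx i j hij).2.1
    have h2 := h1.2 (2 * Nat.pair n s + 1)
    apply h2
    have hi : h' (2 * Nat.pair n s + 1) (x i) = w i := by
      rw [hh'2]; exact hidx n s (x i) (w i) (hw i).1 (hw i).2
    have hj : h' (2 * Nat.pair n s + 1) (x j) = w j := by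
      rw [hh'2]; exact hidx n s (x j) (w j) (hw j).1 (hw j).2
    unfold DownAdj
    rw [hi, hj]
    refine ⟨?_, ?_, hadj'⟩
    · exact ((mem_greedy r (E' n) (x i) (w i)).1 (hw i).1).1
    · exact ((mem_greedy r (E' n) (x j) (w j)).1 (hw j).1).1
  refine ⟨n, k, x, d, y, ?_, ?_, ?_, ?_, ?_, ?_⟩
  · intro i j hij
    have h1 := hx i j hij
    exact ⟨h1.1, h1.2.1.1, h1.2.2.1.2, h1.2.2.2⟩
  · intro m i j hij hi hj hadj'
    have h1 := (hx i j hij).2.1.2 (2 * m)
    apply h1
    unfold DownAdj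
    rw [hh'1]
    exact ⟨hi, hj, hadj'⟩
  · intro i
    exact ⟨hdx0 i, (hdr i).2⟩
  · intro i j hij
    refine ⟨(hdy i j hij).1, hindep p d hd i j hij, ?_⟩
    intro hEij
    apply (hdy i j hij).2.1
    refine ⟨?_, hEij⟩
    exact trans_of r (hdr i).1 (hx i j hij).1
  · intro i
    refine ⟨hy0 i, (hyr i).2, ?_⟩
    rcases trichotomous_of r (d i) (y i) with h1 | h1 | h1
    · right
      exact hadj n _ _ (((mem_greedy r (E' n) (x i) (y i)).1 (hy i).1).2.2 _ h1 (hd i).1)
    · left; exact h1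
    · right
      exact (hadj n _ _ (((mem_greedy r (E' n) (x i) (d i)).1 (hd i).1).2.2 _ h1 (hy i).1)).symm
  · intro i j hij
    have hnE : ¬ E n (y j) (x i) := by
      intro hEji
      apply (hdy i j hij).2.2.1
      refine ⟨?_, hEji⟩
      rcases Nat.eq_zero_or_pos i with rfl | hi
      · exact hy0 j
      · exact trans_of r (hy0 j) (hx 0 i hi).1
    refine ⟨?_, hindep q y hy i j hij, hnE, (hdy i j hij).2.2.2⟩
    intro hyy
    apply hnE
    rw [← hyy]
    exact (hyr i).2

end Pool.Agent.Helper883_Good
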